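import Pool.Agent.MWE.Stmts

/-!
# MWE, row SMA: measure facts
-/

set_option autoImplicit false

namespace Pool.Agent.MWE.H27

open Pool.Agent.Helper14_MV Pool.Agent.Helper2_MV Pool.Agent.MVD

theorem rep_lt {c' c : List ℕ} {b : ℕ} (h : ∀ u, 2 ≤ c'.count u → 2 ≤ c.count u) (hb : b ∈ c)
    (h2 : 2 ≤ c.count b) (hb' : ¬ 2 ≤ c'.count b) : nr c' < nr c := by
  unfold nr
  apply Finset.card_lt_card
  rw [Finset.ssubset_iff_of_subset]
  · refine ⟨b, ?_, ?_⟩
    · rw [Finset.mem_filter, List.mem_toFinset]
      exact ⟨hb, h2⟩
    · rw [Finset.mem_filter]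
      exact fun hh => hb' hh.2
  · intro u hu
    rw [Finset.mem_filter] at hu ⊢
    have h1 := h u hu.2
    refine ⟨?_, h1⟩
    rw [List.mem_toFinset]
    exact List.count_pos_iff.1 (by omega)

theorem sma : SmaStmt := by
  intro m c hc
  have h0 : 0 ∉ c := by
    intro h
    rcases hc.lo 0 h with ⟨d, _, hd⟩ | ⟨_, h6, _⟩
    · omega
    · omega
  have h3 : 3 ∉ c := by
    intro h
    rcases hc.lo 3 h with ⟨d, _, hd⟩ | ⟨_, h6, _⟩
    · omega
    · omega
  refine ⟨?_, ?_, ?_⟩
  · intro g c' a b hg g0 g3 gl hinf hab ha hb h2b ha' hb'
    right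
    constructor
    · unfold nd
      have hsub : c'.toFinset ⊆ ((insert 0 (insert 3 c.toFinset)).erase a).erase b := by
        intro u hu
        rw [List.mem_toFinset] at hu
        have hug : u ∈ g := hinf.subset hu
        rw [Finset.mem_erase, Finset.mem_erase]
        refine ⟨fun h => hb' (h ▸ hu), fun h => ha' (h ▸ hu), ?_⟩
        rw [Finset.mem_insert, Finset.mem_insert, List.mem_toFinset]
        exact hg u hug
      have hcard := Finset.card_le_card hsub
      have hbm : b ∈ (insert 0 (insert 3 c.toFinset)).erase a := by
        rw [Finset.mem_erase]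
        refine ⟨fun h => hab h.symm, ?_⟩
        rw [Finset.mem_insert, Finset.mem_insert, List.mem_toFinset]
        exact Or.inr (Or.inr hb)
      have ham : a ∈ (insert 0 (insert 3 c.toFinset)) := by
        rw [Finset.mem_insert, Finset.mem_insert, List.mem_toFinset]
        exact ha
      rw [Finset.card_erase_of_mem hbm, Finset.card_erase_of_mem ham,
        Finset.card_insert_of_notMem, Finset.card_insert_of_notMem] at hcard
      · omega
      · rw [List.mem_toFinset]; exact h3
      · rw [Finset.mem_insert, List.mem_toFinset]
        rintro (h | h)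
        · omega
        · exact h0 h
    · apply rep_lt (b := b) _ hb h2b
      · rw [List.count_eq_zero_of_not_mem hb']
        omega
      · intro u hu
        have hug : 2 ≤ g.count u := le_trans hu (hinf.sublist.count_le u)
        have hmem : u ∈ g := List.count_pos_iff.1 (by omega)
        rcases hg u hmem with h | h | h
        · subst h; omega
        · subst h; omega
        · rcases hc.lo u h with ⟨d, hd, rfl⟩ | ⟨_, _, h4⟩
          · have := gl d hd
            omega
          · exact h4
  · intro c' a hsub ha ha'
    left
    unfold nd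
    apply Finset.card_lt_card
    rw [Finset.ssubset_iff_of_subset]
    · exact ⟨a, List.mem_toFinset.2 ha, fun h => ha' (List.mem_toFinset.1 h)⟩
    · intro u hu
      rw [List.mem_toFinset] at hu ⊢
      exact hsub u hu
  · intro c' b hsub hl hb h2 hb'
    right
    constructor
    · unfold nd
      apply Finset.card_le_card
      intro u hu
      rw [List.mem_toFinset] at hu ⊢
      exact hsub u hu
    · apply rep_lt (b := b) _ hb h2
      · omega
      · intro u hu
        have hmem : u ∈ c' := List.count_pos_iff.1 (by omega)
        rcases hc.lo u (hsub u hmem) with ⟨d, hd, rfl⟩ | ⟨_, _, h4⟩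
        · have := hl d hd
          omega
        · exact h4

end Pool.Agent.MWE.H27
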